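import Mathlib

namespace Pool.Agent.Lib.MP_215a10_lc

open Finset

variable {P Q : ℕ} [NeZero P] [NeZero Q]

abbrev T (P Q : ℕ) := ZMod P × ZMod Q

def en (v : T P Q → ℤ) : ℤ :=
  ∑ y, ((v (y + (1, 0)) - v y) ^ 2 + (v (y + (0, 1)) - v y) ^ 2)

def l1 (v : T P Q → ℤ) : ℤ := ∑ y, (|v (y + (1, 0)) - v y| + |v (y + (0, 1)) - v y|)

lemma step_le (v : T P Q → ℤ) (y : T P Q) :
    |v (y + (1, 0)) - v y| ≤ l1 v ∧ |v (y + (0, 1)) - v y| ≤ l1 v := by
  have := single_le_sum (f := fun y => |v (y + (1, 0)) - v y| + |v (y + (0, 1)) - v y|)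
    (s := univ) (fun _ _ => by positivity) (mem_univ y)
  unfold l1
  constructor <;> linarith [abs_nonneg (v (y + (1, 0)) - v y), abs_nonneg (v (y + (0, 1)) - v y)]

lemma path_le (v : T P Q → ℤ) (i j : ℕ) : |v ((i : ZMod P), (j : ZMod Q)) - v 0| ≤ (i + j) * l1 v := by
  induction j with
  | zero =>
    induction i with
    | zero => simp [show ((0 : ZMod P), (0 : ZMod Q)) = 0 from rfl]
    | succ i ih =>
      have := (step_le v ((i : ZMod P), ((0 : ℕ) : ZMod Q))).1
      have e : ((i : ZMod P), ((0 : ℕ) : ZMod Q)) + (1, 0) = (((i + 1 : ℕ) : ZMod P), ((0 : ℕ) : ZMod Q)) := by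
        simp
      rw [e] at this
      have := abs_sub_le (v (((i + 1 : ℕ) : ZMod P), ((0 : ℕ) : ZMod Q)))
        (v ((i : ZMod P), ((0 : ℕ) : ZMod Q))) (v 0)
      push_cast at *
      linarith
  | succ j ih =>
    have := (step_le v ((i : ZMod P), (j : ZMod Q))).2
    have e : ((i : ZMod P), (j : ZMod Q)) + (0, 1) = ((i : ZMod P), ((j + 1 : ℕ) : ZMod Q)) := by
      simp
    rw [e] at this
    have := abs_sub_le (v ((i : ZMod P), ((j + 1 : ℕ) : ZMod Q))) (v ((i : ZMod P), (j : ZMod Q))) (v 0)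
    push_cast at *
    linarith

lemma l1_nonneg (v : T P Q → ℤ) : 0 ≤ l1 v := sum_nonneg fun _ _ => by positivity

lemma osc_le (v : T P Q → ℤ) (y : T P Q) : |v y - v 0| ≤ (P + Q) * l1 v := by
  have := path_le v y.1.val y.2.val
  simp only [ZMod.natCast_val, ZMod.cast_id', id, Prod.mk.eta] at this
  refine this.trans (mul_le_mul_of_nonneg_right ?_ (l1_nonneg v))
  have h1 : (y.1.val : ℤ) ≤ P := by exact_mod_cast (ZMod.val_lt y.1).le
  have h2 : (y.2.val : ℤ) ≤ Q := by exact_mod_cast (ZMod.val_lt y.2).le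
  have e1 : (y.1.cast : ℤ) = y.1.val := (ZMod.natCast_val _).symm
  have e2 : (y.2.cast : ℤ) = y.2.val := (ZMod.natCast_val _).symm
  linarith

lemma sum_shift (v : T P Q → ℤ) (x e : T P Q) (he : e ≠ 0) :
    ∑ y, ((v + Pi.single x 1 : T P Q → ℤ) (y + e) - (v + Pi.single x 1 : T P Q → ℤ) y) ^ 2
      = ∑ y, (v (y + e) - v y) ^ 2 - 2 * (v (x + e) + v (x - e) - 2 * v x) + 2 := by
  classical
  have h : ∀ y, ((v + Pi.single x 1 : T P Q → ℤ) (y + e) - (v + Pi.single x 1 : T P Q → ℤ) y) ^ 2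
      = (v (y + e) - v y) ^ 2 + (if y = x - e then 2 * (v (y + e) - v y) + 1 else 0)
        + (if y = x then -2 * (v (y + e) - v y) + 1 else 0) := by
    intro y
    have hx : x - e ≠ x := fun h => he (by simpa using h)
    simp only [Pi.add_apply, Pi.single_apply, ← eq_sub_iff_add_eq]
    by_cases h1 : y = x - e
    · have h2 : ¬ y = x := fun h => hx (h1 ▸ h)
      simp only [if_pos h1, if_neg h2]; ring
    · by_cases h2 : y = x
      · simp only [if_neg h1, if_pos h2]; ring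
      · simp only [if_neg h1, if_neg h2]; ring
  simp only [h, sum_add_distrib, sum_ite_eq', mem_univ, if_true, sub_add_cancel]
  ring

/-- On a discrete torus a configuration of mean below two can be stabilised. -/
theorem torus_stab (hP : 2 ≤ P) (hQ : 2 ≤ Q) (c : T P Q → ℤ) (hc : ∑ y, c y < 2 * (P * Q)) :
    ∃ v : T P Q → ℤ, ∀ x, c x + (v (x + (1, 0)) + v (x - (1, 0)) + v (x + (0, 1)) + v (x - (0, 1)))
      - 4 * v x ≤ 3 := by
  classical
  set m : ℤ := P * Q with hm
  have hm0 : 0 < m := by have : (0 : ℤ) < P := by omega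
                         have : (0 : ℤ) < Q := by omega
                         positivity
  set a : T P Q → ℤ := fun y => (∑ z, c z) - m * c y with ha
  have hsum : ∑ y, a y = 0 := by
    simp only [ha, sum_sub_distrib, ← mul_sum, sum_const, card_univ, Fintype.card_prod, ZMod.card]
    simp [hm]
  set F : (T P Q → ℤ) → ℤ := fun v => m * en v + 2 * ∑ y, a y * v y with hF
  set C : ℤ := (∑ y, |a y|) * (P + Q) with hC
  have hbd : ∀ v, -(2 * C ^ 2 * m) ≤ F v := by
    intro v
    have e1 : ∑ y, a y * v y = ∑ y, a y * (v y - v 0) := by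
      simp only [mul_sub, sum_sub_distrib, ← sum_mul, hsum]; ring
    have e2 : -(C * l1 v) ≤ ∑ y, a y * (v y - v 0) := by
      rw [hC, mul_assoc, sum_mul, ← sum_neg_distrib]
      refine sum_le_sum fun y _ => ?_
      have := mul_le_mul_of_nonneg_left (osc_le v y) (abs_nonneg (a y))
      rw [← abs_mul] at this
      linarith [neg_abs_le (a y * (v y - v 0))]
    have e3 : 2 * (C * l1 v) ≤ en v + 2 * C ^ 2 * m := by
      have : 2 * C ^ 2 * m = ∑ _y : T P Q, 2 * C ^ 2 := by simp [hm]; ring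
      rw [this, l1, en, mul_sum, mul_sum, ← sum_add_distrib]
      refine sum_le_sum fun y _ => ?_
      rw [← sq_abs (v (y + (1, 0)) - v y), ← sq_abs (v (y + (0, 1)) - v y)]
      nlinarith [sq_nonneg (|v (y + (1, 0)) - v y| - C), sq_nonneg (|v (y + (0, 1)) - v y| - C)]
    have e4 : 0 ≤ en v := sum_nonneg fun _ _ => by positivity
    simp only [hF]
    nlinarith
  obtain ⟨z, ⟨v, hv⟩, hmin⟩ := Int.exists_least_of_bdd (P := fun z => ∃ v, F v = z)
    ⟨_, by rintro _ ⟨v, rfl⟩; exact hbd v⟩ ⟨_, 0, rfl⟩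
  refine ⟨v, fun x => ?_⟩
  have h1 := hmin _ ⟨v + Pi.single x 1, rfl⟩
  have : Fact (1 < P) := ⟨hP⟩
  have : Fact (1 < Q) := ⟨hQ⟩
  have s1 := sum_shift v x (1, 0) (by simp)
  have s2 := sum_shift v x (0, 1) (by simp)
  have s3 : ∑ y, a y * (v + Pi.single x 1 : T P Q → ℤ) y = ∑ y, a y * v y + a x := by
    simp [mul_add, sum_add_distrib, Pi.single_apply]
  rw [← hv] at h1
  simp only [hF, en, sum_add_distrib] at h1
  rw [s1, s2, s3] at h1
  simp only [ha] at h1
  by_contra hlt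
  push Not at hlt
  nlinarith

end Pool.Agent.Lib.MP_215a10_lc
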