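import Mathlib
import Pool.Agent.Lib.MP_215a10_lc.Torus

namespace Pool.Agent.Lib.MP_215a10_lc.Criterion

open Finset Pool.Agent.Lib.MP_215a10_lc

/-- `c + n δ₀` has a toppling function that makes it stable. -/
def Stabilizable (c : ℤ × ℤ → ℕ) (n : ℕ) : Prop :=
  ∃ u : ℤ × ℤ → ℕ, ∀ x : ℤ × ℤ,
    (c x : ℤ) + (if x = 0 then (n : ℤ) else 0)
      + ((u (x.1 + 1, x.2) : ℤ) + (u (x.1 - 1, x.2) : ℤ) + (u (x.1, x.2 + 1) : ℤ)
        + (u (x.1, x.2 - 1) : ℤ)) - 4 * (u x : ℤ) ≤ 3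

lemma stab_swap {c : ℤ × ℤ → ℕ} {n : ℕ} (h : Stabilizable (fun x => c x.swap) n) :
    Stabilizable c n := by
  obtain ⟨u, hu⟩ := h
  refine ⟨fun x => u x.swap, fun x => ?_⟩
  have := hu x.swap
  have e : x.swap = 0 ↔ x = 0 := by rcases x with ⟨a, b⟩; simp [and_comm]
  simp only [e, Prod.swap_swap, Prod.fst_swap, Prod.snd_swap, Prod.swap_prod_mk] at this ⊢
  linarith

def mm (α β t : ℤ) : ℤ := min (max t 0) α + min (max (-t) 0) β

lemma mm_le {α β : ℤ} (t : ℤ) : mm α β t ≤ α + β := by unfold mm; omega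

lemma mm_diff {α β : ℤ} (h1 : 0 < α) (h2 : 0 < β) (t : ℤ) :
    2 * mm α β t - mm α β (t + 1) - mm α β (t - 1)
      ≤ (if t = 0 then -1 else 0) + (if t = α ∨ t = -β then 1 else 0) := by
  unfold mm; split_ifs <;> omega

lemma blocking {c : ℤ × ℤ → ℕ} {P a B : ℤ} (ha : 0 ≤ a) (haP : a < P) (v : ℤ × ℤ → ℤ)
    (hB : ∀ x, -B ≤ v x)
    (hv : ∀ x : ℤ × ℤ, (c x : ℤ) + (if P ∣ x.1 - a then 1 else 0)
      + (v (x.1 + 1, x.2) + v (x.1 - 1, x.2) + v (x.1, x.2 + 1) + v (x.1, x.2 - 1)) - 4 * v x ≤ 3)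
    (n : ℕ) : Stabilizable c n := by
  set w : ℤ → ℤ := fun t => ∑ j ∈ range n,
    (2 * ((j + 1) * P) - mm (a + (j + 1) * P) ((j + 1) * P - a) t) with hw
  have hw0 : ∀ t, 0 ≤ w t := fun t => sum_nonneg fun j _ => by
    linarith [mm_le (α := a + (j + 1) * P) (β := (j + 1) * P - a) t]
  have hj : ∀ j : ℕ, P ≤ (j + 1) * P := fun j => by nlinarith [Int.natCast_nonneg j]
  have hw2 : ∀ t, w (t + 1) + w (t - 1) - 2 * w t
      ≤ (if t = 0 then -(n : ℤ) else 0) + (if P ∣ t - a then 1 else 0) := by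
    intro t
    have e1 : w (t + 1) + w (t - 1) - 2 * w t ≤ ∑ j ∈ range n, ((if t = 0 then -1 else 0)
        + (if t = a + (j + 1) * P ∨ t = -((j + 1) * P - a) then 1 else 0 : ℤ)) := by
      simp only [hw]
      rw [mul_sum, ← sum_add_distrib, ← sum_sub_distrib]
      refine sum_le_sum fun j _ => ?_
      linarith [mm_diff (α := a + (j + 1) * P) (β := (j + 1) * P - a) (by linarith [hj j])
        (by linarith [hj j]) t]
    rw [sum_add_distrib] at e1
    refine e1.trans (add_le_add (by split_ifs <;> simp) ?_)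
    rw [sum_boole]
    split_ifs with h
    · norm_cast
      refine card_le_one.2 fun i hi j hj' => ?_
      have h1 := (mem_filter.1 hi).2
      have h2 := (mem_filter.1 hj').2
      push_cast at h1 h2
      have := hj i
      have := hj j
      have : ((i : ℤ) + 1) * P = (j + 1) * P := by omega
      have := mul_right_cancel₀ (by omega : P ≠ 0) this
      omega
    · norm_cast
      rw [Nat.le_zero, card_eq_zero, filter_eq_empty_iff]
      rintro j - (h' | h')
      · exact h ⟨j + 1, by push_cast at h'; rw [h']; ring⟩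
      · exact h ⟨-(j + 1), by push_cast at h'; rw [h']; ring⟩
  refine ⟨fun x => (w x.1 + v (x.1, x.2) + B).toNat, fun x => ?_⟩
  have hc : ∀ s t : ℤ, (((w s + v (s, t) + B).toNat : ℕ) : ℤ) = w s + v (s, t) + B := fun s t =>
    Int.toNat_of_nonneg (by linarith [hw0 s, hB (s, t)])
  simp only [hc]
  have h1 := hw2 x.1
  have h2 := hv x
  rw [show v (x.1, x.2) = v x from rfl]
  by_cases hx : x = 0
  · rw [if_pos hx]; rw [if_pos (by rw [hx]; rfl)] at h1; linarith
  · rw [if_neg hx]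
    have : (if x.1 = 0 then -(n : ℤ) else 0) ≤ 0 := by split_ifs <;> omega
    linarith

lemma per_mul {c : ℤ × ℤ → ℕ} {e : ℤ × ℤ} (h : ∀ x, c (x + e) = c x) (k : ℤ) (x : ℤ × ℤ) :
    c (x + k • e) = c x := Function.Periodic.zsmul h k x

lemma sum_per (f : ℤ → ℤ) (p : ℕ) (h : ∀ t, f (t + p) = f t) (k : ℕ) :
    ∑ i ∈ range (k * p), f i = k * ∑ i ∈ range p, f i := by
  induction k with
  | zero => simp
  | succ k ih =>
    rw [Nat.succ_mul, sum_range_add, ih]
    have : ∀ i : ℕ, f ((k * p + i : ℕ) : ℤ) = f i := fun i => by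
      have := (Function.Periodic.nsmul h k) i
      rw [← this]; congr 1; push_cast; simp; ring
    simp only [this]; push_cast; ring

lemma sum_zmod (P : ℕ) [NeZero P] (f : ℤ → ℤ) :
    ∑ y : ZMod P, f (y.val : ℤ) = ∑ i ∈ range P, f i := by
  obtain ⟨P, rfl⟩ := Nat.exists_eq_succ_of_ne_zero (NeZero.ne P)
  exact Fin.sum_univ_eq_sum_range (fun i => f (i : ℤ)) (P + 1)

lemma low_density {c : ℤ × ℤ → ℕ} {p q : ℕ} (hp : 1 ≤ p) (hq : 1 ≤ q)
    (h1 : ∀ x, c (x + ((p : ℤ), 0)) = c x) (h2 : ∀ x, c (x + (0, (q : ℤ))) = c x)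
    (hs : ∑ i ∈ range p, ∑ j ∈ range q, c (i, j) < 2 * (p * q)) (n : ℕ) : Stabilizable c n := by
  set P := (q + 1) * p with hP
  set Q := 2 * q with hQ
  have hP2 : 2 ≤ P := by nlinarith
  have hQ2 : 2 ≤ Q := by omega
  have : NeZero P := ⟨by omega⟩
  have : NeZero Q := ⟨by omega⟩
  obtain ⟨v, hv⟩ := torus_stab hP2 hQ2
    (fun y : T P Q => (c (y.1.val, y.2.val) : ℤ) + if y.1 = 0 then 1 else 0) (by
      rw [sum_add_distrib, Fintype.sum_prod_type, Fintype.sum_prod_type]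
      have e1 : ∀ a : ℤ, ∑ b : ZMod Q, (c (a, b.val) : ℤ) = 2 * ∑ j ∈ range q, (c (a, j) : ℤ) := by
        intro a
        rw [sum_zmod Q fun t => (c (a, t) : ℤ)]
        exact sum_per (fun t => (c (a, t) : ℤ)) q (fun t => by simpa using h2 (a, t)) 2
      simp only [e1]
      rw [sum_zmod P fun t => 2 * ∑ j ∈ range q, (c (t, j) : ℤ),
        sum_per (fun t => 2 * ∑ j ∈ range q, (c (t, j) : ℤ)) p
          (fun t => by
            congr 1
            exact sum_congr rfl fun j _ => by simpa using h1 (t, j)) (q + 1), ← mul_sum]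
      have hs' : ∑ i ∈ range p, ∑ j ∈ range q, (c (i, j) : ℤ) + 1 ≤ 2 * (p * q) := by
        exact_mod_cast hs
      have e2 : ∑ x : ZMod P, ∑ _y : ZMod Q, (if x = 0 then (1 : ℤ) else 0) = Q := by
        rw [sum_comm]; simp
      simp only [e2, hP, hQ]
      push_cast
      nlinarith)
  obtain ⟨B, hB⟩ := (Set.finite_range v).bddBelow
  refine blocking (P := P) (a := 0) (B := -B) le_rfl (by omega)
    (fun x => v ((x.1 : ZMod P), (x.2 : ZMod Q))) (fun x => by simpa using hB ⟨_, rfl⟩)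
    (fun x => ?_) n
  have := hv ((x.1 : ZMod P), (x.2 : ZMod Q))
  have e : c (((x.1 : ZMod P).val : ℤ), ((x.2 : ZMod Q).val : ℤ)) = c x := by
    rw [ZMod.val_intCast, ZMod.val_intCast,
      ← per_mul h1 ((q + 1) * (x.1 / P)) _, ← per_mul h2 (2 * (x.2 / Q)) _]
    congr 1
    ext
    · have := Int.emod_add_mul_ediv x.1 P
      simp only [hP] at this ⊢; push_cast at this ⊢; simp; linarith
    · have := Int.emod_add_mul_ediv x.2 Q
      simp only [hQ] at this ⊢; push_cast at this ⊢; simp; linarith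
  simp only [e, ZMod.intCast_zmod_eq_zero_iff_dvd, Prod.mk_add_mk, Prod.mk_sub_mk, add_zero,
    sub_zero] at this ⊢
  push_cast
  exact this

lemma line_ext {A three : ℤ → Prop} {lo hi : ℤ} (h3 : ∃ t, lo ≤ t ∧ t ≤ hi ∧ three t)
    (r1 : ∀ t, lo ≤ t → t ≤ hi → three t → A t)
    (r2 : ∀ t, lo ≤ t → t ≤ hi → A (t - 1) ∨ A (t + 1) → A t) (t : ℤ) (h1 : lo ≤ t)
    (h2 : t ≤ hi) : A t := by
  obtain ⟨s, s1, s2, s3⟩ := h3
  rcases le_total s t with h | h
  · induction t, h using Int.leInduction with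
    | base => exact r1 s s1 s2 s3
    | succ t h ih => exact r2 _ h1 h2 (Or.inl (by simpa using ih (by omega) (by omega)))
  · induction t, h using Int.leInductionDown with
    | base => exact r1 s s1 s2 s3
    | pred t h ih => exact r2 _ h1 h2 (Or.inr (by simpa using ih (by omega) (by omega)))

lemma shift_window {p : ℕ} (hp : 1 ≤ p) (j lo : ℤ) : ∃ k : ℤ, lo ≤ j + k * p ∧ j + k * p < lo + p := by
  refine ⟨-((j - lo) / p), ?_⟩
  have := Int.emod_add_mul_ediv (j - lo) p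
  have := Int.emod_nonneg (j - lo) (show (p : ℤ) ≠ 0 by omega)
  have := Int.emod_lt_of_pos (j - lo) (show (0 : ℤ) < p by omega)
  constructor <;> nlinarith

lemma explosive {c : ℤ × ℤ → ℕ} {p q : ℕ} (hp : 1 ≤ p) (hq : 1 ≤ q)
    (h1 : ∀ x, c (x + ((p : ℤ), 0)) = c x) (h2 : ∀ x, c (x + (0, (q : ℤ))) = c x)
    (hc : ∀ x, 2 ≤ c x) (hcol : ∀ i, ∃ j, c (i, j) = 3) (hrow : ∀ j, ∃ i, c (i, j) = 3) :
    ¬ Stabilizable c (8 * 4 ^ (2 * (p + q))) := by
  rintro ⟨u, hu⟩
  obtain ⟨x0, hx0⟩ := exists_minimalFor_of_wellFoundedLT (fun _ => True) u ⟨0, trivial⟩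
  have hmin : ∀ y, u x0 ≤ u y := fun y => by
    by_contra h; exact absurd (hx0.2 trivial (not_le.mp h).le) h
  set v : ℤ × ℤ → ℤ := fun y => (u y : ℤ) - u x0 with hv
  have v0 : ∀ y, 0 ≤ v y := fun y => by simp only [hv]; have := hmin y; omega
  have hv' : ∀ a b : ℤ, (c (a, b) : ℤ) + (if (a, b) = (0 : ℤ × ℤ) then (8 * 4 ^ (2 * (p + q)) : ℤ) else 0)
      + (v (a + 1, b) + v (a - 1, b) + v (a, b + 1) + v (a, b - 1)) - 4 * v (a, b) ≤ 3 := by
    intro a b
    have := hu (a, b)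
    simp only [hv]; push_cast at this; linarith
  have hv2 : ∀ a b : ℤ, (c (a, b) : ℤ)
      + (v (a + 1, b) + v (a - 1, b) + v (a, b + 1) + v (a, b - 1)) - 4 * v (a, b) ≤ 3 := by
    intro a b
    have := hv' a b
    have : (0 : ℤ) ≤ if (a, b) = (0 : ℤ × ℤ) then (8 * 4 ^ (2 * (p + q)) : ℤ) else 0 := by
      split_ifs <;> positivity
    linarith
  have big : ∀ k : ℕ, ∀ a b : ℤ, |a| + |b| ≤ k → 2 * 4 ^ (2 * (p + q)) ≤ 4 ^ k * (v (a, b) + 1) := by
    intro k
    induction k with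
    | zero =>
      intro a b h
      have ha : a = 0 := by rw [← abs_nonpos_iff]; push_cast at h; linarith [abs_nonneg b]
      have hb : b = 0 := by rw [← abs_nonpos_iff]; push_cast at h; linarith [abs_nonneg a]
      subst ha hb
      have := hv' 0 0
      rw [if_pos (show ((0 : ℤ), (0 : ℤ)) = 0 from rfl)] at this
      linarith [v0 (0 + 1, 0), v0 (0 - 1, 0), v0 (0, 0 + 1), v0 (0, 0 - 1), Int.natCast_nonneg (c (0, 0))]
    | succ k ih =>
      intro a b h
      have e := hv2 a b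
      have n1 := v0 (a + 1, b)
      have n2 := v0 (a - 1, b)
      have n3 := v0 (a, b + 1)
      have n4 := v0 (a, b - 1)
      have n5 := v0 (a, b)
      have n6 := Int.natCast_nonneg (c (a, b))
      have hk : (0 : ℤ) < 4 ^ k := by positivity
      push_cast at h
      rw [pow_succ]
      have : |a + 1| + |b| ≤ k ∨ |a - 1| + |b| ≤ k ∨ |a| + |b + 1| ≤ k ∨ |a| + |b - 1| ≤ k
          ∨ |a| + |b| ≤ k := by
        simp only [Int.abs_eq_natAbs] at h ⊢; omega
      rcases this with h | h | h | h | h <;> have := ih _ _ h <;> nlinarith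
  have sq : ∀ R : ℕ, p + q ≤ R → ∀ a b : ℤ, -(R : ℤ) ≤ a → a ≤ R → -(R : ℤ) ≤ b → b ≤ R →
      1 ≤ v (a, b) := by
    intro R hR
    induction R, hR using Nat.le_induction with
    | base =>
      intro a b a1 a2 b1 b2
      have := big (2 * (p + q)) a b (by
        have := abs_le.2 ⟨a1, a2⟩; have := abs_le.2 ⟨b1, b2⟩; push_cast at *; linarith)
      have hk : (0 : ℤ) < 4 ^ (2 * (p + q)) := by positivity
      nlinarith
    | succ R hR ih =>
      have hR' : (p : ℤ) + q ≤ R := by exact_mod_cast hR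
      have c3 : ∀ a : ℤ, ∃ t, -(R : ℤ) ≤ t ∧ t ≤ R ∧ c (a, t) = 3 := by
        intro a
        obtain ⟨j, hj⟩ := hcol a
        obtain ⟨k, k1, k2⟩ := shift_window hq j (-R)
        refine ⟨j + k * q, k1, by omega, ?_⟩
        rw [← hj, ← per_mul h2 k (a, j)]; simp
      have r3 : ∀ b : ℤ, ∃ t, -(R : ℤ) - 1 ≤ t ∧ t ≤ R + 1 ∧ c (t, b) = 3 := by
        intro b
        obtain ⟨j, hj⟩ := hrow b
        obtain ⟨k, k1, k2⟩ := shift_window hp j (-R)
        refine ⟨j + k * p, by omega, by omega, ?_⟩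
        rw [← hj, ← per_mul h1 k (j, b)]; simp
      have step : ∀ a b : ℤ, (c (a, b) = 3 ∧ 1 ≤ v (a + 1, b) + v (a - 1, b) + v (a, b + 1)
          + v (a, b - 1)) ∨ 2 ≤ v (a + 1, b) + v (a - 1, b) + v (a, b + 1) + v (a, b - 1) →
          1 ≤ v (a, b) := by
        intro a b h
        have := hv2 a b
        have := hc (a, b)
        omega
      have wide : ∀ a b : ℤ, -(R : ℤ) - 1 ≤ a → a ≤ R + 1 → -(R : ℤ) ≤ b → b ≤ R →
          1 ≤ v (a, b) := by
        intro a b a1 a2 b1 b2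
        by_cases ha : -(R : ℤ) ≤ a ∧ a ≤ R
        · exact ih a b ha.1 ha.2 b1 b2
        have hn : ∀ t, -(R : ℤ) ≤ t → t ≤ R → 1 ≤ v (a + 1, t) + v (a - 1, t) := by
          intro t t1 t2
          rcases (show a = R + 1 ∨ a = -R - 1 by omega) with h | h
          · linarith [ih (a - 1) t (by omega) (by omega) t1 t2, v0 (a + 1, t)]
          · linarith [ih (a + 1) t (by omega) (by omega) t1 t2, v0 (a - 1, t)]
        refine line_ext (A := fun t => 1 ≤ v (a, t)) (c3 a) (fun t t1 t2 h => ?_)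
          (fun t t1 t2 h => ?_) b b1 b2
        · exact step a t (Or.inl ⟨h, by linarith [hn t t1 t2, v0 (a, t + 1), v0 (a, t - 1)]⟩)
        · refine step a t (Or.inr ?_)
          rcases h with h | h <;> linarith [hn t t1 t2, v0 (a, t + 1), v0 (a, t - 1)]
      intro a b a1 a2 b1 b2
      push_cast at a1 a2 b1 b2
      by_cases hb : -(R : ℤ) ≤ b ∧ b ≤ R
      · exact wide a b (by omega) a2 hb.1 hb.2
      have hn : ∀ t, -(R : ℤ) - 1 ≤ t → t ≤ R + 1 → 1 ≤ v (t, b + 1) + v (t, b - 1) := by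
        intro t t1 t2
        rcases (show b = R + 1 ∨ b = -R - 1 by omega) with h | h
        · linarith [wide t (b - 1) t1 t2 (by omega) (by omega), v0 (t, b + 1)]
        · linarith [wide t (b + 1) t1 t2 (by omega) (by omega), v0 (t, b - 1)]
      refine line_ext (A := fun t => 1 ≤ v (t, b)) (r3 b) (fun t t1 t2 h => ?_)
        (fun t t1 t2 h => ?_) a (by omega) a2
      · exact step t b (Or.inl ⟨h, by linarith [hn t t1 t2, v0 (t + 1, b), v0 (t - 1, b)]⟩)
      · refine step t b (Or.inr ?_)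
        rcases h with h | h <;> linarith [hn t t1 t2, v0 (t + 1, b), v0 (t - 1, b)]
  have := sq (p + q + x0.1.natAbs + x0.2.natAbs) (by omega) x0.1 x0.2 (by omega) (by omega)
    (by omega) (by omega)
  simp [hv] at this

lemma column {c : ℤ × ℤ → ℕ} {p : ℕ} (hp : 1 ≤ p) (h1 : ∀ x, c (x + ((p : ℤ), 0)) = c x)
    (h3 : ∀ x, c x ≤ 3) {i : ℤ} (hi : ∀ j, c (i, j) ≠ 3) (n : ℕ) : Stabilizable c n := by
  obtain ⟨k, k1, k2⟩ := shift_window hp i 0
  refine blocking (P := p) (a := i + k * p) (B := 0) k1 (by omega) (fun _ => 0) (by simp)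
    (fun x => ?_) n
  have := h3 x
  split_ifs with h
  · obtain ⟨m, hm⟩ := h
    have e : c x = c (i, x.2) := by
      rw [← per_mul h1 (k + m) (i, x.2)]
      congr 1; ext <;> simp; linarith
    have := hi x.2
    omega
  · omega

theorem both (c : ℤ × ℤ → ℕ) (p q : ℕ) (hp : 1 ≤ p) (hq : 1 ≤ q)
    (h1 : ∀ x, c (x + ((p : ℤ), 0)) = c x) (h2 : ∀ x, c (x + (0, (q : ℤ))) = c x)
    (h3 : ∀ x, c x ≤ 3) :
    (∑ i ∈ range p, ∑ j ∈ range q, c (i, j) < 2 * (p * q) → ∀ n, Stabilizable c n) ∧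
    ((∀ x, 2 ≤ c x) → ((∃ n, ¬ Stabilizable c n) ↔
      (∀ i, ∃ j, c (i, j) = 3) ∧ ∀ j, ∃ i, c (i, j) = 3)) := by
  refine ⟨low_density hp hq h1 h2, fun hc => ⟨fun ⟨n, hn⟩ => ⟨fun i => ?_, fun j => ?_⟩,
    fun h => ⟨_, explosive hp hq h1 h2 hc h.1 h.2⟩⟩⟩
  · by_contra h
    push Not at h
    exact hn (column hp h1 h3 h n)
  · by_contra h
    push Not at h
    exact hn (stab_swap (column (c := fun x => c x.swap) hq
      (fun x => by simpa using h2 x.swap) (fun x => h3 _) (i := j) h n))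

end Pool.Agent.Lib.MP_215a10_lc.Criterion
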